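import Pool.Agent.Helper42.KS.Goals
import Pool.Agent.Helper92.Field.Divisor

set_option autoImplicit false

namespace Pool.Agent.Helper42.KS.PkDIVB

open Pool.Agent.Helper42.KS

theorem card_le (l z : ℕ) (hz : 1 ≤ z) :
    ((Fintype.piFinset (fun _ : Fin l => Finset.Icc 1 z)).filter
      (fun h => ∏ i, h i = z)).card ≤ z.divisors.card ^ l := by
  calc ((Fintype.piFinset (fun _ : Fin l => Finset.Icc 1 z)).filter
      (fun h => ∏ i, h i = z)).card
      ≤ (Fintype.piFinset (fun _ : Fin l => z.divisors)).card := by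
        apply Finset.card_le_card
        intro h hh
        rw [Finset.mem_filter] at hh
        rw [Fintype.mem_piFinset]
        intro i
        rw [Nat.mem_divisors]
        exact ⟨hh.2 ▸ Finset.dvd_prod_of_mem h (Finset.mem_univ i), by omega⟩
    _ = z.divisors.card ^ l := by
        rw [Fintype.card_piFinset]
        simp

theorem thm : G_DIVB := by
  intro l ε hε
  have hδ : 0 < ε / (l + 1) := by positivity
  obtain ⟨C, hC, h⟩ := Pool.Agent.Helper92.Field.divisor_bound hδ
  refine ⟨C ^ l, fun z hz => ?_⟩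
  have hz1 : (1 : ℝ) ≤ z := by exact_mod_cast hz
  have h1 := h z (by omega)
  calc (((Fintype.piFinset (fun _ : Fin l => Finset.Icc 1 z)).filter
      (fun h => ∏ i, h i = z)).card : ℝ) ≤ (z.divisors.card : ℝ) ^ l := by
        exact_mod_cast card_le l z hz
    _ ≤ (C * (z : ℝ) ^ (ε / (l + 1))) ^ l := pow_le_pow_left₀ (by positivity) h1 l
    _ = C ^ l * (z : ℝ) ^ (ε / (l + 1) * l) := by
        rw [mul_pow, ← Real.rpow_natCast ((z : ℝ) ^ (ε / (l + 1))) l, ← Real.rpow_mul (by positivity)]
    _ ≤ C ^ l * (z : ℝ) ^ ε := by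
        apply mul_le_mul_of_nonneg_left _ (by positivity)
        apply Real.rpow_le_rpow_of_exponent_le hz1
        rw [div_mul_eq_mul_div, div_le_iff₀ (by positivity)]
        nlinarith

end Pool.Agent.Helper42.KS.PkDIVB
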