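import Pool.Agent.Helper89.KS.Goals

/-!
# Project KS (MP_480c30_co), packet SYS: the sequence of systems
-/

namespace Pool.Agent.Helper59.KS

open Finset MeasureTheory Filter Topology Pool.Agent.Helper89.GP Pool.Agent.Helper89.KS
open Pool.Agent.Helper44.KS (KSys Filling)
open scoped ENNReal

/-- SYS. -/
theorem sys (h1 : KsyStmt) (h2 : FlbStmt) : SysStmt := by
  intro c hc hyp
  have key : ∀ N : ℕ, ∃ Z : KSys c, (N : ℝ) + 1 ≤ Z.S ∧
      ∃ (n : ℕ) (R : Fin n → Fin n → Prop) (x : Fin n), (LX R).Nonempty ∧ Z.S = dv R x ∧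
        (∀ σ ∈ LX R, (dv R x) ^ 2 ≤ (po σ x : ℝ) ∧ (dv R x) ^ 2 + po σ x + 1 ≤ n) ∧
        ∀ (G : ℝ → ℝ) (ε : ℝ), Continuous G →
          Z.μ.real {d | ε < |(∑ p, G (d p)) / Z.S - ∫ y, G y|} =
            (mu R).real {v | ε < |(∑ p, G (nm x (dv R x) v p)) / dv R x - ∫ y, G y|} := by
    intro N
    obtain ⟨n, R, x, hne, hS, hmax, hpos, hbal⟩ := hyp ((N : ℝ) + 1)
    have hN : (0 : ℝ) ≤ N := Nat.cast_nonneg N
    obtain ⟨Z, hZ1, hZ2⟩ := h1 c n R x hne (by linarith) hmax hbal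
    exact ⟨Z, by rw [hZ1]; exact hS, n, R, x, hne, hZ1, hpos, hZ2⟩
  choose Z hZS hZ using key
  refine ⟨Z, ?_, ?_⟩
  · refine tendsto_atTop_mono (fun N ↦ ?_) tendsto_natCast_atTop_atTop
    have := hZS N
    linarith
  · intro G hG hK ε hε
    rw [Metric.tendsto_atTop]
    intro δ hδ
    obtain ⟨S0, hS0⟩ := h2 G hG hK (min ε (δ / 2)) (lt_min hε (by positivity))
    refine ⟨⌈S0⌉₊, fun N hN ↦ ?_⟩
    obtain ⟨n, R, x, hne, hS, hpos, heq⟩ := hZ N
    have hb : S0 ≤ dv R x := by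
      rw [← hS]
      have h3 := hZS N
      have h4 : S0 ≤ (N : ℝ) := (Nat.le_ceil S0).trans (by exact_mod_cast hN)
      linarith
    have h5 := hS0 (dv R x) hb n R x hne hpos
    rw [← heq G _ hG] at h5
    have h6 : (Z N).μ.real {d | ε < |(∑ p, G (d p)) / (Z N).S - ∫ y, G y|} ≤
        (Z N).μ.real {d | min ε (δ / 2) < |(∑ p, G (d p)) / (Z N).S - ∫ y, G y|} :=
      measureReal_mono fun d (hd : ε < _) ↦ lt_of_le_of_lt (min_le_left _ _) hd
    rw [Real.dist_eq, sub_zero, abs_of_nonneg measureReal_nonneg]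
    have h7 : min ε (δ / 2) ≤ δ / 2 := min_le_right _ _
    linarith

end Pool.Agent.Helper59.KS
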